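import Pool.Agent.CutS3.Final

set_option autoImplicit false

/-!
# MP_f67b88_gt : structure of the cut locus of `g_{a,b,c}` on `S^3`, `a < b < c`

For `c ≤ a + b` the cut locus of the identity is a closed disc, interior points being reached by
exactly two segments and boundary points by exactly one.  For `a + b < c` it is a chain of three
closed discs touching at the points `k` and `-k`; these two points are reached by a continuum of
segments, the other interior points by exactly two and the other boundary points by exactly one.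
The disc (case `c ≤ a + b`) and the middle disc (case `a + b < c`) lie in the half
`re ≤ 0` of the great sphere `imI = 0`, the two outer discs in the half `0 ≤ re` of the great
sphere `imJ = 0`.
-/

namespace Pool.Agent.Results.MP_f67b88_gt.CutLocusStructure

open Set Quaternion Pool.Agent.CutS3

theorem result (a b c : ℝ) (ha : 0 < a) (hab : a < b) (hbc : b < c) :
    (c ≤ a + b →
      ∃ φ : Metric.closedBall (0 : ℂ) 1 → ℍ[ℝ], Topology.IsEmbedding φ ∧
        range φ = cutLocus a b c ∧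
        (∀ z : Metric.closedBall (0 : ℂ) 1, ‖(z : ℂ)‖ < 1 → (segments a b c (φ z)).encard = 2) ∧
        (∀ z : Metric.closedBall (0 : ℂ) 1, ‖(z : ℂ)‖ = 1 →
          (segments a b c (φ z)).encard = 1) ∧
        (∀ z : Metric.closedBall (0 : ℂ) 1, (φ z).imI = 0 ∧ (φ z).re ≤ 0)) ∧
    (a + b < c →
      (∃ φ : threeDiscs → ℍ[ℝ], Topology.IsEmbedding φ ∧
        range φ = cutLocus a b c ∧
        (∀ z : threeDiscs, (z : ℂ) = 1 → φ z = ⟨0, 0, 0, 1⟩) ∧
        (∀ z : threeDiscs, (z : ℂ) = -1 → φ z = ⟨0, 0, 0, -1⟩) ∧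
        (∀ z : threeDiscs, ((z : ℂ) = 1 ∨ (z : ℂ) = -1) →
          Cardinal.mk (segments a b c (φ z)) = Cardinal.continuum) ∧
        (∀ z : threeDiscs, (‖(z : ℂ)‖ < 1 ∨ ‖(z : ℂ) - 2‖ < 1 ∨ ‖(z : ℂ) + 2‖ < 1) →
          (segments a b c (φ z)).encard = 2) ∧
        (∀ z : threeDiscs, (z : ℂ) ≠ 1 → (z : ℂ) ≠ -1 →
          ¬ (‖(z : ℂ)‖ < 1 ∨ ‖(z : ℂ) - 2‖ < 1 ∨ ‖(z : ℂ) + 2‖ < 1) →
          (segments a b c (φ z)).encard = 1) ∧
        (∀ z : threeDiscs, ‖(z : ℂ)‖ ≤ 1 → (φ z).imI = 0 ∧ (φ z).re ≤ 0) ∧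
        (∀ z : threeDiscs, (‖(z : ℂ) - 2‖ ≤ 1 ∨ ‖(z : ℂ) + 2‖ ≤ 1) →
          (φ z).imJ = 0 ∧ 0 ≤ (φ z).re)) ∧
      ¬ Nonempty (cutLocus a b c ≃ₜ Metric.closedBall (0 : ℂ) 1)) :=
  main a b c ha hab hbc

end Pool.Agent.Results.MP_f67b88_gt.CutLocusStructure
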